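import Pool.Agent.V11141.DP.Sat

/-!
# Vertex degrees in `K_{r+1}^r`-free `r`-graphs: counting
-/

set_option autoImplicit false

open Finset

namespace Pool.Agent.V11141.DP

open Pool.Agent.H120R2.Clique

/-- the number of members of `H` which contain `x` -/
def deg {n : ℕ} (H : Finset (Finset (Fin n))) (x : Fin n) : ℕ :=
  (H.filter (fun e => x ∈ e)).card

/-- the `r`-sets containing `x` which are not in `H` -/
def Miss {n : ℕ} (r : ℕ) (H : Finset (Finset (Fin n))) (x : Fin n) : Finset (Finset (Fin n)) :=
  ((univ : Finset (Fin n)).powersetCard r).filter (fun e => x ∈ e ∧ e ∉ H)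

variable {n : ℕ}

theorem deg_add_miss {r : ℕ} (hr : 1 ≤ r) (H : Finset (Finset (Fin n)))
    (hH : ∀ e ∈ H, e.card = r) (x : Fin n) :
    deg H x + (Miss r H x).card = (n - 1).choose (r - 1) := by
  have h1 := card_supersets r ({x} : Finset (Fin n)) (by simpa using hr)
  rw [card_singleton] at h1
  rw [← h1, ← Finset.card_filter_add_card_filter_not (s := ((univ : Finset (Fin n)).powersetCard r).filter
    (fun S => {x} ⊆ S)) (fun e => e ∈ H)]
  unfold deg Miss
  congr 2
  · ext e
    simp only [mem_filter, mem_powersetCard, subset_univ, true_and, singleton_subset_iff]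
    constructor
    · rintro ⟨h, h'⟩
      exact ⟨⟨hH e h, h'⟩, h⟩
    · rintro ⟨⟨_, h'⟩, h⟩
      exact ⟨h, h'⟩
  · ext e
    simp only [mem_filter, mem_powersetCard, subset_univ, true_and, singleton_subset_iff]
    tauto

/-- the link of a pair -/
def Lk (q : ℕ) (H : Finset (Finset (Fin n))) (x y : Fin n) : Finset (Finset (Fin n)) :=
  ((univ : Finset (Fin n)).powersetCard q).filter
    (fun S => x ∉ S ∧ y ∉ S ∧ insert x (insert y S) ∈ H)

/-- the missing sets at a pair -/
def MissP (q : ℕ) (H : Finset (Finset (Fin n))) (x y : Fin n) : Finset (Finset (Fin n)) :=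
  (Miss (q + 2) H x).filter (fun e => y ∈ e)

theorem link_bound (q : ℕ) (H : Finset (Finset (Fin n))) {x y : Fin n} (hxy : x ≠ y) :
    (n - 2).choose q ≤ (Lk q H x y).card + (MissP q H x y).card := by
  have h1 := card_supersets (q + 2) ({x, y} : Finset (Fin n)) (by rw [card_pair hxy]; omega)
  rw [card_pair hxy, show q + 2 - 2 = q by omega] at h1
  rw [← h1, ← Finset.card_filter_add_card_filter_not
    (s := ((univ : Finset (Fin n)).powersetCard (q + 2)).filter (fun S => {x, y} ⊆ S))
    (fun e => e ∈ H)]
  apply Nat.add_le_add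
  · refine Finset.card_le_card_of_injOn (fun e => (e.erase x).erase y) ?_ ?_
    · intro e he
      simp only [coe_filter, mem_filter, mem_powersetCard, subset_univ, true_and,
        Set.mem_ofPred_eq, insert_subset_iff, singleton_subset_iff] at he
      obtain ⟨⟨h2, h3, h4⟩, h5⟩ := he
      simp only [Lk, coe_filter, mem_powersetCard, subset_univ, true_and, Set.mem_ofPred_eq]
      have h6 : y ∈ e.erase x := mem_erase.2 ⟨hxy.symm, h4⟩
      refine ⟨?_, ?_, ?_, ?_⟩
      · rw [card_erase_of_mem h6, card_erase_of_mem h3, h2]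
        omega
      · intro h
        exact (mem_erase.1 (mem_erase.1 h).2).1 rfl
      · intro h
        exact (mem_erase.1 h).1 rfl
      · rw [insert_erase h6, insert_erase h3]
        exact h5
    · intro e he e' he' hee
      simp only [coe_filter, mem_filter, mem_powersetCard, subset_univ, true_and,
        Set.mem_ofPred_eq, insert_subset_iff, singleton_subset_iff] at he he'
      obtain ⟨⟨h2, h3, h4⟩, h5⟩ := he
      obtain ⟨⟨h2', h3', h4'⟩, h5'⟩ := he'
      have h6 : y ∈ e.erase x := mem_erase.2 ⟨hxy.symm, h4⟩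
      have h6' : y ∈ e'.erase x := mem_erase.2 ⟨hxy.symm, h4'⟩
      have h7 : insert x (insert y ((e.erase x).erase y)) =
          insert x (insert y ((e'.erase x).erase y)) := by
        simp only at hee
        rw [hee]
      rwa [insert_erase h6, insert_erase h3, insert_erase h6', insert_erase h3'] at h7
  · apply card_le_card
    intro e he
    simp only [mem_filter, mem_powersetCard, subset_univ, true_and, insert_subset_iff,
      singleton_subset_iff] at he
    simp only [MissP, Miss, mem_filter, mem_powersetCard, subset_univ, true_and]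
    tauto

/-- candidates for the complete `(q + 1)`-sets in the link of a pair -/
def KK (q : ℕ) (H : Finset (Finset (Fin n))) (x y : Fin n) : Finset (Finset (Fin n)) :=
  ((univ : Finset (Fin n)).powersetCard (q + 1)).filter
    (fun S => x ∉ S ∧ y ∉ S ∧ (insert x S ∉ H ∨ insert y S ∉ H))

theorem KK_half (q : ℕ) (H : Finset (Finset (Fin n))) (x : Fin n) :
    (((univ : Finset (Fin n)).powersetCard (q + 1)).filter
      (fun S => x ∉ S ∧ insert x S ∉ H)).card ≤ (Miss (q + 2) H x).card := by
  refine Finset.card_le_card_of_injOn (fun S => insert x S) ?_ ?_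
  · intro S hS
    simp only [coe_filter, mem_powersetCard, subset_univ, true_and, Set.mem_ofPred_eq] at hS
    simp only [Miss, coe_filter, mem_powersetCard, subset_univ, true_and, Set.mem_ofPred_eq]
    exact ⟨by rw [card_insert_of_notMem hS.2.1, hS.1], mem_insert_self _ _, hS.2.2⟩
  · intro S hS S' hS' h
    simp only [coe_filter, mem_powersetCard, subset_univ, true_and, Set.mem_ofPred_eq] at hS hS'
    simp only at h
    rw [← erase_insert hS.2.1, h, erase_insert hS'.2.1]

theorem KK_card (q : ℕ) (H : Finset (Finset (Fin n))) (x y : Fin n) :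
    (KK q H x y).card ≤ (Miss (q + 2) H x).card + (Miss (q + 2) H y).card := by
  refine le_trans (card_le_card (t := (((univ : Finset (Fin n)).powersetCard (q + 1)).filter
      (fun S => x ∉ S ∧ insert x S ∉ H)) ∪ (((univ : Finset (Fin n)).powersetCard (q + 1)).filter
      (fun S => y ∉ S ∧ insert y S ∉ H))) ?_) ((card_union_le _ _).trans
      (Nat.add_le_add (KK_half q H x) (KK_half q H y)))
  intro S hS
  simp only [KK, mem_union, mem_filter, mem_powersetCard, subset_univ, true_and] at hS ⊢
  tauto

/-- a set of `m + 1` elements whose subsets of `m` elements are in `G` -/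
theorem clique_erase {m : ℕ} {G : Finset (Finset (Fin n))} {T : Finset (Fin n)}
    (hT : T.card = m + 1) (h : ∀ z ∈ T, T.erase z ∈ G) : T.powersetCard m ⊆ G := by
  intro e he
  rw [mem_powersetCard] at he
  obtain ⟨z, hz, hze⟩ : ∃ z ∈ T, z ∉ e := by
    by_contra hcon
    push Not at hcon
    have := card_le_card (fun z hz => hcon z hz : T ⊆ e)
    omega
  have h1 : e = T.erase z := by
    apply Finset.eq_of_subset_of_card_le
    · intro w hw
      exact mem_erase.2 ⟨fun h => hze (h ▸ hw), he.1 hw⟩
    · rw [card_erase_of_mem hz, hT, he.2]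
      omega
  rw [h1]
  exact h z hz

theorem KK_mem {q : ℕ} (hq : 1 ≤ q) (H : Finset (Finset (Fin n)))
    (hF : ¬ HasClique H (q + 2) (q + 3)) {x y : Fin n} (hxy : x ≠ y) (S : Finset (Fin n))
    (hS : S.card = q + 1) (h : S.powersetCard q ⊆ Lk q H x y) : S ∈ KK q H x y := by
  have key : ∀ z ∈ S, x ∉ S.erase z ∧ y ∉ S.erase z ∧ insert x (insert y (S.erase z)) ∈ H := by
    intro z hz
    have h1 := h (mem_powersetCard.2 ⟨erase_subset z S, by rw [card_erase_of_mem hz, hS]; rfl⟩)
    simp only [Lk, mem_filter] at h1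
    exact h1.2
  have aux : ∀ w : Fin n, (∀ z ∈ S, w ∉ S.erase z) → w ∉ S := by
    intro w hw hwS
    have h2 : 1 < S.card := by omega
    obtain ⟨z, hz, hzw⟩ := exists_mem_ne h2 w
    exact hw z hz (mem_erase.2 ⟨hzw.symm, hwS⟩)
  have hx : x ∉ S := aux x fun z hz => (key z hz).1
  have hy : y ∉ S := aux y fun z hz => (key z hz).2.1
  unfold KK
  rw [mem_filter]
  refine ⟨mem_powersetCard.2 ⟨subset_univ _, hS⟩, hx, hy, ?_⟩
  by_contra hcon
  push Not at hcon
  apply hF
  have hx' : x ∉ insert y S := by
    rw [mem_insert]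
    rintro (h | h)
    · exact hxy h
    · exact hx h
  refine ⟨insert x (insert y S), by rw [card_insert_of_notMem hx', card_insert_of_notMem hy, hS],
    ?_⟩
  apply clique_erase (by rw [card_insert_of_notMem hx', card_insert_of_notMem hy, hS])
  intro z hz
  rw [mem_insert, mem_insert] at hz
  rcases hz with rfl | rfl | hz
  · rw [erase_insert hx']
    exact hcon.2
  · rw [insert_comm, erase_insert]
    · exact hcon.1
    · rw [mem_insert]
      rintro (h | h)
      · exact hxy h.symm
      · exact hy h
  · have e1 : (insert x (insert y S)).erase z = insert x (insert y (S.erase z)) := by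
      have hzx : x ≠ z := fun h => hx (h ▸ hz)
      have hzy : y ≠ z := fun h => hy (h ▸ hz)
      rw [erase_insert_of_ne hzx, erase_insert_of_ne hzy]
    rw [e1]
    exact (key z hz).2.2

/-- the sets containing `x` and at least two further elements of `X` -/
def E2 (q : ℕ) (X : Finset (Fin n)) (x : Fin n) : Finset (Finset (Fin n)) :=
  ((univ : Finset (Fin n)).powersetCard (q + 2)).filter
    (fun e => x ∈ e ∧ 2 ≤ (e ∩ X.erase x).card)

theorem E2_card {q : ℕ} (hq : 1 ≤ q) (X : Finset (Fin n)) (x : Fin n) :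
    (E2 q X x).card ≤ X.card ^ 2 * n.choose (q - 1) := by
  have h1 : E2 q X x ⊆ (((X.erase x) ×ˢ (X.erase x)).filter (fun p => p.1 ≠ p.2)).biUnion
      (fun p => ((univ : Finset (Fin n)).powersetCard (q + 2)).filter
        (fun e => {x, p.1, p.2} ⊆ e)) := by
    intro e he
    unfold E2 at he
    rw [mem_filter] at he
    obtain ⟨y, z, hy, hz, hyz⟩ := Finset.one_lt_card_iff.1 (show 1 < (e ∩ X.erase x).card by omega)
    rw [mem_inter] at hy hz
    rw [mem_biUnion]
    refine ⟨(y, z), mem_filter.2 ⟨mem_product.2 ⟨hy.2, hz.2⟩, hyz⟩, mem_filter.2 ⟨he.1, ?_⟩⟩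
    simp only [insert_subset_iff, singleton_subset_iff]
    exact ⟨he.2.1, hy.1, hz.1⟩
  refine (card_le_card h1).trans (card_biUnion_le.trans ?_)
  have h2 : ∀ p ∈ ((X.erase x) ×ˢ (X.erase x)).filter (fun p => p.1 ≠ p.2),
      (((univ : Finset (Fin n)).powersetCard (q + 2)).filter
        (fun e => {x, p.1, p.2} ⊆ e)).card ≤ n.choose (q - 1) := by
    intro p hp
    rw [mem_filter, mem_product, mem_erase, mem_erase] at hp
    have h3 : ({x, p.1, p.2} : Finset (Fin n)).card = 3 := by
      rw [card_eq_three]
      exact ⟨x, p.1, p.2, hp.1.1.1.symm, hp.1.2.1.symm, hp.2, rfl⟩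
    rw [card_supersets _ _ (by rw [h3]; omega), h3, show q + 2 - 3 = q - 1 by omega]
    exact Nat.choose_le_choose _ (by omega)
  refine (sum_le_sum h2).trans ?_
  rw [sum_const, smul_eq_mul]
  apply Nat.mul_le_mul_right
  refine (card_filter_le _ _).trans ?_
  rw [card_product, sq]
  exact Nat.mul_le_mul (card_le_card (erase_subset _ _)) (card_le_card (erase_subset _ _))

theorem sum_missP {q : ℕ} (hq : 1 ≤ q) (H : Finset (Finset (Fin n))) (X : Finset (Fin n))
    (x : Fin n) : ∑ y ∈ X.erase x, (MissP q H x y).card ≤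
      (Miss (q + 2) H x).card + (q + 2) * (X.card ^ 2 * n.choose (q - 1)) := by
  have h1 : ∑ y ∈ X.erase x, (MissP q H x y).card =
      ∑ e ∈ Miss (q + 2) H x, (e ∩ X.erase x).card := by
    unfold MissP
    simp_rw [card_filter]
    rw [sum_comm]
    refine sum_congr rfl fun e _ => ?_
    rw [← card_filter]
    congr 1
    ext y
    simp only [mem_filter, mem_inter]
    tauto
  rw [h1]
  have h2 : ∀ e ∈ Miss (q + 2) H x, (e ∩ X.erase x).card ≤
      1 + (q + 2) * (if e ∈ E2 q X x then 1 else 0) := by
    intro e he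
    unfold Miss at he
    rw [mem_filter, mem_powersetCard] at he
    have h3 : (e ∩ X.erase x).card ≤ q + 2 := by
      rw [← he.1.2]
      exact card_le_card inter_subset_left
    split_ifs with h4
    · omega
    · have h5 : ¬ 2 ≤ (e ∩ X.erase x).card := by
        intro h6
        apply h4
        unfold E2
        rw [mem_filter, mem_powersetCard]
        exact ⟨he.1, he.2.1, h6⟩
      omega
  refine (sum_le_sum h2).trans ?_
  rw [sum_add_distrib, sum_const, smul_eq_mul, mul_one, ← mul_sum, ← card_filter]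
  apply Nat.add_le_add_left
  apply Nat.mul_le_mul_left
  refine le_trans (card_le_card ?_) (E2_card hq X x)
  intro e he
  exact (mem_filter.1 he).2

/-- the main counting inequality -/
theorem count (q : ℕ) (hq : 1 ≤ q) (η : ℝ) (hη : 0 < η) : ∃ τ : ℝ, 0 < τ ∧ ∃ n₀ : ℕ, ∀ n : ℕ,
    n₀ ≤ n → ∀ H : Finset (Finset (Fin n)), ¬ HasClique H (q + 2) (q + 3) →
    ∀ (X : Finset (Fin n)) (x : Fin n),
    (∀ y ∈ insert x X, ((Miss (q + 2) H y).card : ℝ) ≤ τ * n.choose (q + 1)) →
    ((X.erase x).card : ℝ) * ((n - 2).choose q - (turanDensity q (q + 1) + η) * n.choose q) ≤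
      (Miss (q + 2) H x).card + (q + 2) * ((X.card : ℝ) ^ 2 * n.choose (q - 1)) := by
  obtain ⟨τ, hτ, n₀, h0⟩ := sat_lim q η hη
  refine ⟨τ / 2, by positivity, n₀, ?_⟩
  intro n hn H hF X x hX
  have h1 : ∀ y ∈ X.erase x, ((n - 2).choose q : ℝ) -
      (turanDensity q (q + 1) + η) * n.choose q ≤ ((MissP q H x y).card : ℝ) := by
    intro y hy
    rw [mem_erase] at hy
    have h2 : (((n - 2).choose q : ℕ) : ℝ) ≤ ((Lk q H x y).card : ℝ) + (MissP q H x y).card := by
      exact_mod_cast link_bound q H hy.1.symm
    have h3 := h0 n hn (Lk q H x y) (by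
      intro A hA
      unfold Lk at hA
      rw [mem_filter, mem_powersetCard] at hA
      exact hA.1.2) (KK q H x y) (fun S hS h => KK_mem hq H hF hy.1.symm S hS h) (by
      intro A hA
      unfold KK at hA
      rw [mem_filter, mem_powersetCard] at hA
      exact hA.1.2) (by
      have h4 : ((KK q H x y).card : ℝ) ≤ (Miss (q + 2) H x).card + (Miss (q + 2) H y).card := by
        exact_mod_cast KK_card q H x y
      have h5 := hX x (mem_insert_self _ _)
      have h6 := hX y (mem_insert_of_mem hy.2)
      linarith)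
    linarith
  have h2 := sum_le_sum h1
  rw [sum_const, nsmul_eq_mul] at h2
  refine h2.trans ?_
  exact_mod_cast sum_missP hq H X x

end Pool.Agent.V11141.DP
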