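import Pool.Agent.V11141.DP.Upper

/-!
# Vertex degrees in `K_{r+1}^r`-free `r`-graphs: the construction
-/

set_option autoImplicit false

open Finset

namespace Pool.Agent.V11141.DP

open Pool.Agent.H120R2.Clique

variable {n : ℕ}

/-- the sets with exactly one point in `A`, and those with exactly two points in `A` whose remaining
part is in `F` -/
def LH (q : ℕ) (A : Finset (Fin n)) (F : Finset (Finset (Fin n))) : Finset (Finset (Fin n)) :=
  ((univ : Finset (Fin n)).powersetCard (q + 2)).filter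
    (fun e => (e ∩ A).card = 1 ∨ ((e ∩ A).card = 2 ∧ e \ A ∈ F))

theorem LH_free {q : ℕ} (hq : 1 ≤ q) (A : Finset (Fin n)) (F : Finset (Finset (Fin n)))
    (hF : ¬ HasClique F q (q + 1)) : ¬ HasClique (LH q A F) (q + 2) (q + 3) := by
  rintro ⟨T, hT, hTs⟩
  have key : ∀ z ∈ T, ((T.erase z ∩ A).card = 1 ∨
      ((T.erase z ∩ A).card = 2 ∧ T.erase z \ A ∈ F)) := by
    intro z hz
    have h := hTs (mem_powersetCard.2 ⟨erase_subset z T, by rw [card_erase_of_mem hz, hT]; rfl⟩)
    unfold LH at h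
    rw [mem_filter] at h
    exact h.2
  have f1 : ∀ z ∈ T, z ∈ A → (T.erase z ∩ A).card = (T ∩ A).card - 1 := by
    intro z hz hzA
    rw [erase_inter, card_erase_of_mem (mem_inter.2 ⟨hz, hzA⟩)]
  have f2 : ∀ z ∈ T, z ∉ A → T.erase z ∩ A = T ∩ A := by
    intro z hz hzA
    rw [erase_inter, erase_eq_of_notMem]
    intro h
    exact hzA (mem_inter.1 h).2
  by_cases hsub : T ⊆ A
  · have hne : T.Nonempty := by rw [← card_pos]; omega
    obtain ⟨z, hz⟩ := hne
    have h1 := f1 z hz (hsub hz)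
    rw [inter_eq_left.2 hsub, hT] at h1
    rcases key z hz with h | h
    · omega
    · omega
  · rw [not_subset] at hsub
    obtain ⟨z, hz, hzA⟩ := hsub
    have h2 := key z hz
    rw [f2 z hz hzA] at h2
    have hne : (T ∩ A).Nonempty := by
      rw [← card_pos]
      rcases h2 with h | h
      · omega
      · omega
    obtain ⟨w, hw⟩ := hne
    rw [mem_inter] at hw
    have h3 := f1 w hw.1 hw.2
    rcases h2 with h | h
    · rcases key w hw.1 with h' | h'
      · omega
      · omega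
    · apply hF
      refine ⟨T \ A, ?_, ?_⟩
      · have := card_sdiff_add_card_inter T A
        omega
      · apply clique_erase
        · have := card_sdiff_add_card_inter T A
          omega
        · intro u hu
          rw [mem_sdiff] at hu
          rcases key u hu.1 with h' | h'
          · rw [f2 u hu.1 hu.2] at h'
            omega
          · rw [← erase_sdiff_comm]
            exact h'.2

theorem LH_miss {q : ℕ} (A : Finset (Fin n)) (F : Finset (Finset (Fin n))) {x : Fin n}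
    (hx : x ∈ A) : (Miss (q + 2) (LH q A F) x).card ≤
      A.card * (((univ : Finset (Fin n)).powersetCard q) \ F).card + (E2 q A x).card := by
  have h1 : Miss (q + 2) (LH q A F) x ⊆
      ((A ×ˢ (((univ : Finset (Fin n)).powersetCard q) \ F)).image
        (fun p => insert x (insert p.1 p.2))) ∪ E2 q A x := by
    intro e he
    unfold Miss LH at he
    simp only [mem_filter, mem_powersetCard, subset_univ, true_and, not_and, not_or] at he
    obtain ⟨h2, h3, h4⟩ := he
    obtain ⟨h5, h6⟩ := h4 h2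
    rw [mem_union]
    by_cases h7 : 2 ≤ (e ∩ A.erase x).card
    · right
      unfold E2
      rw [mem_filter, mem_powersetCard]
      exact ⟨⟨subset_univ _, h2⟩, h3, h7⟩
    · left
      have h8 : (e ∩ A.erase x).card + 1 = (e ∩ A).card := by
        rw [inter_erase, card_erase_of_mem (mem_inter.2 ⟨h3, hx⟩)]
        have : 0 < (e ∩ A).card := card_pos.2 ⟨x, mem_inter.2 ⟨h3, hx⟩⟩
        omega
      have h9 : (e ∩ A.erase x).card = 1 := by omega
      obtain ⟨y, hy⟩ := card_eq_one.1 h9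
      have hy' : y ∈ e ∩ A.erase x := by rw [hy]; exact mem_singleton_self _
      rw [mem_inter, mem_erase] at hy'
      rw [mem_image]
      refine ⟨(y, e \ A), ?_, ?_⟩
      · rw [mem_product, mem_sdiff, mem_powersetCard]
        refine ⟨hy'.2.2, ⟨subset_univ _, ?_⟩, h6 (by omega)⟩
        have := card_sdiff_add_card_inter e A
        show (e \ A).card = q
        omega
      · ext w
        simp only [mem_insert, mem_sdiff]
        constructor
        · rintro (rfl | rfl | h)
          · exact h3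
          · exact hy'.1
          · exact h.1
        · intro hw
          by_cases hwA : w ∈ A
          · by_cases hwx : w = x
            · left; exact hwx
            · right; left
              have : w ∈ e ∩ A.erase x := mem_inter.2 ⟨hw, mem_erase.2 ⟨hwx, hwA⟩⟩
              rw [hy] at this
              exact mem_singleton.1 this
          · right; right
            exact ⟨hw, hwA⟩
  refine (card_le_card h1).trans ((card_union_le _ _).trans (Nat.add_le_add_right ?_ _))
  refine card_image_le.trans ?_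
  rw [card_product]

theorem exp_le {y : ℝ} (h1 : y ≤ 1 / 2) : Real.exp (-(y + 2 * y ^ 2)) ≤ 1 - y := by
  have h2 : 0 < 1 - y := by linarith
  rw [← Real.le_log_iff_exp_le h2]
  refine le_trans ?_ (Real.one_sub_inv_le_log_of_pos h2)
  have h3 : 1 - (1 - y)⁻¹ = -(y / (1 - y)) := by
    field_simp
    ring
  rw [h3, neg_le_neg_iff, div_le_iff₀ h2]
  nlinarith [mul_nonneg (sq_nonneg y) (show 0 ≤ 1 - 2 * y by linarith)]

/-- the degrees in the construction -/
theorem exists_H (q : ℕ) (hq : 1 ≤ q) (n m : ℕ) (hnn2 : 2 * q + 2 ≤ n) (hmn : m ≤ n) :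
    ∃ (H : Finset (Finset (Fin n))) (A : Finset (Fin n)), (∀ e ∈ H, e.card = q + 2) ∧
    ¬ HasClique H (q + 2) (q + 3) ∧ A.card = m ∧ ∀ x ∈ A,
    (n.choose (q + 1) : ℝ) * (1 - (q + 1) / n - ((m : ℝ) / n * kap q * (1 + 2 * q / n) +
      4 * q * (q + 1) * ((m : ℝ) / n) ^ 2)) ≤ deg H x := by
  have hk1 := one_le_kap q
  have hk0 : 0 < kap q := by linarith
  have hq' : (1 : ℝ) ≤ q := by exact_mod_cast hq
  have hnq : 2 * (q : ℝ) + 2 ≤ n := by exact_mod_cast hnn2
  have hn0 : (0 : ℝ) < n := by linarith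
  obtain ⟨A, -, hA⟩ := Finset.exists_subset_card_eq (s := (univ : Finset (Fin n))) (n := m)
    (by rw [card_univ, Fintype.card_fin]; exact hmn)
  obtain ⟨F, hF1, hF2, hF3⟩ := exists_extremal (n := n) (k := q) (m := q + 1) (by omega)
  have hHr : ∀ e ∈ LH q A F, e.card = q + 2 := by
    intro e he
    unfold LH at he
    rw [mem_filter, mem_powersetCard] at he
    exact he.1.2
  refine ⟨LH q A F, A, hHr, LH_free hq A F hF2, hA, ?_⟩
  set Aq : ℝ := ((n.choose q : ℕ) : ℝ) with hAq
  set B : ℝ := ((n.choose (q - 1) : ℕ) : ℝ) with hB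
  set N : ℝ := ((n.choose (q + 1) : ℕ) : ℝ) with hN
  set π' : ℝ := turanDensity q (q + 1) with hπ
  have hk : kap q = (q + 1) * (1 - π') := rfl
  have pAq : 0 < Aq := by rw [hAq]; exact_mod_cast Nat.choose_pos (by omega)
  have pN : 0 < N := by rw [hN]; exact_mod_cast Nat.choose_pos (by omega)
  have pB : 0 ≤ B := by positivity
  have b1 : ((n : ℝ) - q) * Aq = (q + 1) * N := bin1 q n (by omega)
  have b4 : B * n ^ 2 ≤ 4 * q * (q + 1) * N := bin4 q n hq (by omega)
  set a : ℝ := (m : ℝ) / n with ha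
  have ha0 : 0 ≤ a := by positivity
  -- density of `F`
  have hFd : π' * Aq ≤ F.card := by
    have h1 := density_le_ratio (k := q) (m := q + 1) (n := n) (by omega)
    rw [le_div_iff₀ (by exact_mod_cast Nat.choose_pos (by omega)), ← hF3] at h1
    exact h1
  have hFc : (((((univ : Finset (Fin n)).powersetCard q) \ F).card : ℕ) : ℝ) ≤ (1 - π') * Aq := by
    have h1 : F ⊆ (univ : Finset (Fin n)).powersetCard q := fun e he =>
      mem_powersetCard.2 ⟨subset_univ _, hF1 e he⟩
    have h2 := card_sdiff_add_card_eq_card h1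
    rw [card_powersetCard, card_univ, Fintype.card_fin] at h2
    have h3 : (((((univ : Finset (Fin n)).powersetCard q) \ F).card : ℕ) : ℝ) + F.card = Aq := by
      rw [hAq]; exact_mod_cast h2
    linarith
  -- bound for `Aq`
  have hAq2 : Aq ≤ (q + 1) * N / n * (1 + 2 * q / n) := by
    have h1 : 0 < (n : ℝ) - q := by linarith
    have h2 : Aq = (q + 1) * N / (n - q) := by
      rw [eq_div_iff h1.ne']
      linarith
    have h3 : 1 / ((n : ℝ) - q) ≤ 1 / n * (1 + 2 * q / n) := by
      have h4 : 1 / (n : ℝ) * (1 + 2 * q / n) = (n + 2 * q) / (n * n) := by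
        field_simp
      rw [h4, div_le_div_iff₀ h1 (by positivity)]
      nlinarith
    calc Aq = (q + 1) * N * (1 / (n - q)) := by rw [h2]; ring
      _ ≤ (q + 1) * N * (1 / n * (1 + 2 * q / n)) := by gcongr
      _ = _ := by ring
  have hB2 : B ≤ 4 * q * (q + 1) * N / n ^ 2 := by
    rw [le_div_iff₀ (by positivity)]
    exact b4
  have hπ1 : 0 ≤ 1 - π' := by
    have h1 : 0 < (q + 1) * (1 - π') := hk ▸ hk0
    exact nonneg_of_mul_nonneg_right h1.le (by positivity)
  intro x hx
  have h1 := deg_add_miss (r := q + 2) (by omega) (LH q A F) hHr x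
  have h2 := LH_miss (q := q) A F hx
  have h3 := E2_card hq A x
  rw [hA] at h2 h3
  have h4 : (n - 1).choose (q + 1) * n = n.choose (q + 1) * (n - (q + 1)) := by
    obtain ⟨k, rfl⟩ : ∃ k, n = k + 1 := ⟨n - 1, by omega⟩
    have := Nat.choose_mul_succ_eq k (q + 1)
    rw [Nat.add_sub_cancel]
    exact this
  have h5 : (((n - 1).choose (q + 1) : ℕ) : ℝ) = N * (1 - (q + 1) / n) := by
    have h6 : (((n - 1).choose (q + 1) : ℕ) : ℝ) * n = N * (n - (q + 1)) := by
      have h7 : (((n - 1).choose (q + 1) : ℕ) : ℝ) * n = N * ((n - (q + 1) : ℕ) : ℝ) := by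
        rw [hN]; exact_mod_cast h4
      rw [h7, Nat.cast_sub (by omega)]
      push_cast
      ring
    have h8 : (((n - 1).choose (q + 1) : ℕ) : ℝ) = N * (n - (q + 1)) / n := by
      rw [eq_div_iff hn0.ne']; exact h6
    rw [h8]
    field_simp
  have h6 : (deg (LH q A F) x : ℝ) + (Miss (q + 2) (LH q A F) x).card =
      N * (1 - (q + 1) / n) := by
    rw [← h5]
    have h7 : q + 2 - 1 = q + 1 := by omega
    rw [h7] at h1
    exact_mod_cast h1
  have h7 : ((Miss (q + 2) (LH q A F) x).card : ℝ) ≤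
      m * (((((univ : Finset (Fin n)).powersetCard q) \ F).card : ℕ) : ℝ) + m ^ 2 * B := by
    have h8 : (Miss (q + 2) (LH q A F) x).card ≤
      m * (((univ : Finset (Fin n)).powersetCard q) \ F).card + m ^ 2 * n.choose (q - 1) :=
      h2.trans (Nat.add_le_add_left h3 _)
    rw [hB]
    exact_mod_cast h8
  have h8 : ((Miss (q + 2) (LH q A F) x).card : ℝ) ≤
      N * (a * kap q * (1 + 2 * q / n) + 4 * q * (q + 1) * a ^ 2) := by
    refine h7.trans ?_
    calc (m : ℝ) * (((((univ : Finset (Fin n)).powersetCard q) \ F).card : ℕ) : ℝ) + m ^ 2 * B ≤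
        m * ((1 - π') * ((q + 1) * N / n * (1 + 2 * q / n))) +
          m ^ 2 * (4 * q * (q + 1) * N / n ^ 2) := by
          gcongr
          exact hFc.trans (mul_le_mul_of_nonneg_left hAq2 hπ1)
      _ = _ := by
          rw [hk, ha]
          field_simp
  have : N * (1 - (q + 1) / n - (a * kap q * (1 + 2 * q / n) + 4 * q * (q + 1) * a ^ 2)) =
    N * (1 - (q + 1) / n) - N * (a * kap q * (1 + 2 * q / n) + 4 * q * (q + 1) * a ^ 2) := by
    ring
  rw [this]
  linarith

theorem lower (q : ℕ) (hq : 1 ≤ q) (δ : ℝ) (hδ : 0 < δ) : ∃ P : ℝ, ∀ p : ℝ, P ≤ p →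
    ∃ n₀ : ℕ, ∀ n : ℕ, n₀ ≤ n → ∃ H : Finset (Finset (Fin n)), (∀ e ∈ H, e.card = q + 2) ∧
    ¬ HasClique H (q + 2) (q + 3) ∧
    (Real.exp (-1) / kap q - δ) / p * n * (n.choose (q + 1) : ℝ) ^ p ≤
      ∑ x : Fin n, (deg H x : ℝ) ^ p := by
  have hk1 := one_le_kap q
  have hk0 : 0 < kap q := by linarith
  have hq' : (1 : ℝ) ≤ q := by exact_mod_cast hq
  set C : ℝ := (q + 1) + 2 * q + 4 * q * (q + 1) with hC
  have hC0 : 0 < C := by positivity
  set C' : ℝ := C + 2 * (1 + C) ^ 2 with hC'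
  have hlim : Filter.Tendsto (fun p : ℝ => (1 / kap q - 1 / p) * Real.exp (-1 - C' / p))
      Filter.atTop (nhds ((1 / kap q - 0) * Real.exp (-1 - 0))) := by
    refine Filter.Tendsto.mul ?_ ?_
    · exact tendsto_const_nhds.sub (tendsto_const_nhds.div_atTop Filter.tendsto_id)
    · exact (Real.continuous_exp.tendsto _).comp
        (tendsto_const_nhds.sub (tendsto_const_nhds.div_atTop Filter.tendsto_id))
  have e0 : (1 / kap q - 0) * Real.exp (-1 - 0) = Real.exp (-1) / kap q := by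
    rw [sub_zero, sub_zero]; ring
  rw [e0] at hlim
  obtain ⟨P, hP⟩ := Filter.eventually_atTop.1
    (hlim.eventually (lt_mem_nhds (show Real.exp (-1) / kap q - δ < Real.exp (-1) / kap q by
      linarith)))
  refine ⟨max P (2 * (1 + C)), ?_⟩
  intro p hp
  have hp1 : P ≤ p := (le_max_left _ _).trans hp
  have hp2 : 2 * (1 + C) ≤ p := (le_max_right _ _).trans hp
  have hp3 : 1 ≤ p := by linarith
  have hp0 : 0 < p := by linarith
  obtain ⟨n₁, hn₁⟩ := exists_nat_ge (p ^ 2)
  refine ⟨max n₁ (2 * q + 2), ?_⟩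
  intro n hn
  have hnn1 : n₁ ≤ n := (le_max_left _ _).trans hn
  have hnn2 : 2 * q + 2 ≤ n := (le_max_right _ _).trans hn
  have hnp : p ^ 2 ≤ (n : ℝ) := hn₁.trans (by exact_mod_cast hnn1)
  have hnq : 2 * (q : ℝ) + 2 ≤ n := by exact_mod_cast hnn2
  have hn0 : (0 : ℝ) < n := by linarith
  -- the set `A`
  set m : ℕ := ⌊(n : ℝ) / (kap q * p)⌋₊ with hm
  have hkp : 1 ≤ kap q * p := by nlinarith
  have hm1 : (m : ℝ) ≤ n / (kap q * p) := Nat.floor_le (by positivity)
  have hm2 : (n : ℝ) / (kap q * p) - 1 ≤ m := by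
    have := Nat.lt_floor_add_one ((n : ℝ) / (kap q * p))
    linarith
  have hmn : m ≤ n := by
    have h1 : (n : ℝ) / (kap q * p) ≤ n := div_le_self hn0.le hkp
    exact_mod_cast hm1.trans h1
  obtain ⟨H, A, hHr, hHf, hA, hdeg0⟩ := exists_H q hq n m hnn2 hmn
  refine ⟨H, hHr, hHf, ?_⟩
  set N : ℝ := ((n.choose (q + 1) : ℕ) : ℝ) with hN
  have pN : 0 < N := by rw [hN]; exact_mod_cast Nat.choose_pos (by omega)
  set a : ℝ := (m : ℝ) / n with ha
  have ha0 : 0 ≤ a := by positivity
  have ha1 : a * kap q ≤ 1 / p := by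
    rw [ha, div_mul_eq_mul_div, div_le_div_iff₀ hn0 hp0]
    rw [le_div_iff₀ (by positivity)] at hm1
    linarith
  have ha2 : a ≤ 1 / p := by
    refine le_trans ?_ ha1
    exact le_mul_of_one_le_right ha0 hk1
  -- degrees
  set y : ℝ := 1 / p + C / p ^ 2 with hy
  have hy0 : 0 ≤ y := by positivity
  have hy1 : y ≤ (1 + C) / p := by
    have h1 : C / p ^ 2 ≤ C / p := by
      apply div_le_div_of_nonneg_left hC0.le hp0
      nlinarith
    have h2 : (1 + C) / p = 1 / p + C / p := by ring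
    linarith
  have hy2 : y ≤ 1 / 2 := by
    refine hy1.trans ?_
    rw [div_le_iff₀ hp0]
    linarith
  have hn1p : 1 / (n : ℝ) ≤ 1 / p ^ 2 := one_div_le_one_div_of_le (by positivity) hnp
  have hdeg : ∀ x ∈ A, N * (1 - y) ≤ (deg H x : ℝ) := by
    intro x hx
    have h9 : a * kap q * (1 + 2 * q / n) ≤ 1 / p + 2 * q / p ^ 2 := by
      have h10 : a * kap q * (1 + 2 * q / n) = a * kap q + (a * kap q) * (2 * q) * (1 / n) := by
        ring
      have h11 : (a * kap q) * (2 * q) * (1 / n) ≤ 1 * (2 * q) * (1 / p ^ 2) := by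
        have h12 : a * kap q ≤ 1 := ha1.trans (by rw [div_le_one hp0]; exact hp3)
        gcongr
      rw [h10]
      have h13 : 2 * q / p ^ 2 = 1 * (2 * q) * (1 / p ^ 2) := by ring
      rw [h13]
      linarith
    have h10 : 4 * q * (q + 1) * a ^ 2 ≤ 4 * q * (q + 1) / p ^ 2 := by
      have h11 : a ^ 2 ≤ (1 / p) ^ 2 := by gcongr
      calc 4 * q * (q + 1) * a ^ 2 ≤ 4 * q * (q + 1) * (1 / p) ^ 2 := by gcongr
        _ = _ := by ring
    have h11 : ((q : ℝ) + 1) / n ≤ (q + 1) / p ^ 2 := by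
      have : ((q : ℝ) + 1) / n = (q + 1) * (1 / n) := by ring
      rw [this]
      have : ((q : ℝ) + 1) / p ^ 2 = (q + 1) * (1 / p ^ 2) := by ring
      rw [this]
      gcongr
    refine le_trans ?_ (hdeg0 x hx)
    apply mul_le_mul_of_nonneg_left _ pN.le
    have h13 : y = 1 / p + ((q + 1) / p ^ 2 + 2 * q / p ^ 2 + 4 * q * (q + 1) / p ^ 2) := by
      rw [hy, hC]; ring
    rw [h13]
    linarith
  have hpy : p * (y + 2 * y ^ 2) ≤ 1 + C' / p := by
    have h1 : p * y = 1 + C / p := by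
      rw [hy]; field_simp
    have h2 : p * (2 * y ^ 2) ≤ 2 * (1 + C) ^ 2 / p := by
      have h3 : y ^ 2 ≤ ((1 + C) / p) ^ 2 := by gcongr
      calc p * (2 * y ^ 2) ≤ p * (2 * ((1 + C) / p) ^ 2) := by gcongr
        _ = 2 * (1 + C) ^ 2 / p := by field_simp
    have h3 : C' / p = C / p + 2 * (1 + C) ^ 2 / p := by rw [hC']; ring
    rw [mul_add, h1, h3]
    linarith
  have hpow : ∀ x ∈ A, N ^ p * Real.exp (-1 - C' / p) ≤ (deg H x : ℝ) ^ p := by
    intro x hx
    have h1 : N * Real.exp (-(y + 2 * y ^ 2)) ≤ (deg H x : ℝ) :=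
      (mul_le_mul_of_nonneg_left (exp_le hy2) pN.le).trans (hdeg x hx)
    calc N ^ p * Real.exp (-1 - C' / p) ≤ N ^ p * Real.exp (-(y + 2 * y ^ 2) * p) := by
          apply mul_le_mul_of_nonneg_left _ (by positivity)
          apply Real.exp_le_exp.2
          linarith
      _ = (N * Real.exp (-(y + 2 * y ^ 2))) ^ p := by
          rw [Real.mul_rpow pN.le (Real.exp_pos _).le, ← Real.exp_mul]
      _ ≤ _ := Real.rpow_le_rpow (by positivity) h1 hp0.le
  have hsum : (m : ℝ) * (N ^ p * Real.exp (-1 - C' / p)) ≤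
      ∑ x : Fin n, (deg H x : ℝ) ^ p := by
    have h1 : A.card • (N ^ p * Real.exp (-1 - C' / p)) ≤ ∑ x ∈ A, (deg H x : ℝ) ^ p :=
      Finset.card_nsmul_le_sum _ _ _ hpow
    rw [hA, nsmul_eq_mul] at h1
    refine h1.trans ?_
    exact Finset.sum_le_sum_of_subset_of_nonneg (subset_univ A)
      (fun x _ _ => Real.rpow_nonneg (Nat.cast_nonneg _) _)
  refine le_trans ?_ hsum
  have hNp : 0 < N ^ p := Real.rpow_pos_of_pos pN p
  have h1 := (hP p hp1).le
  have h2 : (1 / kap q - 1 / p) / p * n ≤ m := by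
    refine le_trans ?_ hm2
    have h3 : (1 / kap q - 1 / p) / p * n = n / (kap q * p) - n / p ^ 2 := by
      field_simp
    rw [h3]
    have h4 : 1 ≤ (n : ℝ) / p ^ 2 := by
      rw [le_div_iff₀ (by positivity)]
      linarith
    linarith
  calc (Real.exp (-1) / kap q - δ) / p * n * N ^ p ≤
      ((1 / kap q - 1 / p) * Real.exp (-1 - C' / p)) / p * n * N ^ p :=
        mul_le_mul_of_nonneg_right (mul_le_mul_of_nonneg_right
          (div_le_div_of_nonneg_right h1 hp0.le) hn0.le) hNp.le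
    _ = ((1 / kap q - 1 / p) / p * n) * (N ^ p * Real.exp (-1 - C' / p)) := by ring
    _ ≤ m * (N ^ p * Real.exp (-1 - C' / p)) :=
        mul_le_mul_of_nonneg_right h2 (mul_pos hNp (Real.exp_pos _)).le

/-- many vertices of nearly full degree -/
theorem largeLower (q : ℕ) (hq : 1 ≤ q) (δ : ℝ) (hδ : 0 < δ) : ∃ ε₀ : ℝ, 0 < ε₀ ∧
    ∀ ε : ℝ, 0 < ε → ε ≤ ε₀ → ∃ n₀ : ℕ, ∀ n : ℕ, n₀ ≤ n → ∃ H : Finset (Finset (Fin n)),
    (∀ e ∈ H, e.card = q + 2) ∧ ¬ HasClique H (q + 2) (q + 3) ∧
    (1 / kap q - δ) * ε * n ≤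
      ((univ.filter (fun x : Fin n => (1 - ε) * (n.choose (q + 1) : ℝ) ≤ deg H x)).card : ℝ) := by
  have hk1 := one_le_kap q
  have hk0 : 0 < kap q := by linarith
  have hq' : (1 : ℝ) ≤ q := by exact_mod_cast hq
  refine ⟨min 1 (δ / (16 * q * (q + 1))), by positivity, ?_⟩
  intro ε hε hεe
  have hε1 : ε ≤ 1 := hεe.trans (min_le_left _ _)
  have hε2 : ε ≤ δ / (16 * q * (q + 1)) := hεe.trans (min_le_right _ _)
  rw [le_div_iff₀ (by positivity)] at hε2
  set β : ℝ := 1 / kap q - δ / 2 with hβ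
  by_cases hβ0 : β ≤ 0
  · refine ⟨2 * q + 2, ?_⟩
    intro n hn
    obtain ⟨H, A, h1, h2, h3, h4⟩ := exists_H q hq n 0 hn (Nat.zero_le _)
    refine ⟨H, h1, h2, ?_⟩
    refine le_trans ?_ (Nat.cast_nonneg _)
    have h5 : 1 / kap q - δ ≤ 0 := by linarith
    have h6 : (0 : ℝ) ≤ ε * n := by positivity
    rw [mul_assoc]
    exact mul_nonpos_of_nonpos_of_nonneg h5 h6
  · push Not at hβ0
    have hβ1 : β ≤ 1 := by
      have : 1 / kap q ≤ 1 := by rw [div_le_one hk0]; exact hk1
      linarith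
    obtain ⟨n₁, hn₁⟩ := exists_nat_ge (4 * (3 * q + 1) / (δ * ε))
    refine ⟨max n₁ (2 * q + 2), ?_⟩
    intro n hn
    have hnn1 : n₁ ≤ n := (le_max_left _ _).trans hn
    have hnn2 : 2 * q + 2 ≤ n := (le_max_right _ _).trans hn
    have hnr : 4 * (3 * q + 1) / (δ * ε) ≤ (n : ℝ) := hn₁.trans (by exact_mod_cast hnn1)
    rw [div_le_iff₀ (by positivity)] at hnr
    have hn0 : (0 : ℝ) < n := by
      have : 0 < n := by omega
      exact_mod_cast this
    set m : ℕ := ⌊β * ε * n⌋₊ with hm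
    have hm1 : (m : ℝ) ≤ β * ε * n := Nat.floor_le (by positivity)
    have hm2 : β * ε * n - 1 ≤ m := by
      have := Nat.lt_floor_add_one (β * ε * n)
      linarith
    have hbe : β * ε ≤ 1 := by nlinarith
    have hmn : m ≤ n := by
      have h1 : (m : ℝ) ≤ n := hm1.trans (by nlinarith)
      exact_mod_cast h1
    obtain ⟨H, A, h1, h2, h3, h4⟩ := exists_H q hq n m hnn2 hmn
    refine ⟨H, h1, h2, ?_⟩
    have pN : (0 : ℝ) < n.choose (q + 1) := by exact_mod_cast Nat.choose_pos (by omega)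
    set a : ℝ := (m : ℝ) / n with ha
    have ha0 : 0 ≤ a := by positivity
    have ha1 : a ≤ β * ε := by rw [ha, div_le_iff₀ hn0]; exact hm1
    have ha2 : a ≤ ε := ha1.trans (by nlinarith)
    have hak : a * kap q ≤ ε - δ / 2 * ε := by
      have h5 : β * kap q = 1 - δ / 2 * kap q := by
        rw [hβ, sub_mul, one_div_mul_cancel hk0.ne']
      calc a * kap q ≤ (β * ε) * kap q := by gcongr
        _ = (β * kap q) * ε := by ring
        _ = ε - (δ / 2 * ε) * kap q := by rw [h5]; ring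
        _ ≤ ε - (δ / 2 * ε) * 1 := by
          have h6 : (δ / 2 * ε) * 1 ≤ (δ / 2 * ε) * kap q := by gcongr
          linarith
        _ = _ := by ring
    have hak1 : a * kap q ≤ 1 := by
      have : 0 ≤ δ / 2 * ε := by positivity
      linarith
    have hsub : A ⊆ univ.filter (fun x : Fin n => (1 - ε) * (n.choose (q + 1) : ℝ) ≤ deg H x) := by
      intro x hx
      rw [mem_filter]
      refine ⟨mem_univ _, le_trans ?_ (h4 x hx)⟩
      rw [mul_comm]
      apply mul_le_mul_of_nonneg_left _ pN.le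
      have h5 : 4 * q * (q + 1) * a ^ 2 ≤ δ / 4 * ε := by
        have h6 : a ^ 2 ≤ ε ^ 2 := by gcongr
        calc 4 * q * (q + 1) * a ^ 2 ≤ 4 * q * (q + 1) * ε ^ 2 := by gcongr
          _ = (ε * (16 * q * (q + 1))) * ε / 4 := by ring
          _ ≤ δ * ε / 4 := by gcongr
          _ = _ := by ring
      have h6 : ((q : ℝ) + 1) / n + (a * kap q) * (2 * q / n) ≤ δ / 4 * ε := by
        have h7 : ((q : ℝ) + 1) / n + (a * kap q) * (2 * q / n) ≤ (q + 1) / n + 1 * (2 * q / n) := by
          gcongr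
        refine h7.trans ?_
        have h8 : ((q : ℝ) + 1) / n + 1 * (2 * q / n) = (3 * q + 1) / n := by ring
        rw [h8, div_le_iff₀ hn0]
        linarith
      have h7 : a * kap q * (1 + 2 * q / n) = a * kap q + (a * kap q) * (2 * q / n) := by ring
      rw [h7]
      linarith
    have h5 := card_le_card hsub
    rw [h3] at h5
    have h6 : (m : ℝ) ≤ ((univ.filter (fun x : Fin n =>
        (1 - ε) * (n.choose (q + 1) : ℝ) ≤ deg H x)).card : ℝ) := by exact_mod_cast h5
    refine le_trans ?_ h6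
    refine le_trans ?_ hm2
    have h7 : (1 / kap q - δ) * ε * n = β * ε * n - δ / 2 * ε * n := by rw [hβ]; ring
    rw [h7]
    have h8 : 1 ≤ δ / 2 * ε * n := by nlinarith
    linarith

end Pool.Agent.V11141.DP
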