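import Pool.Agent.H120R2.CliqueDefs

/-!
# Supersaturation for the complete `q`-graph on `q + 1` vertices
-/

set_option autoImplicit false

open Finset

namespace Pool.Agent.V11141.DP

open Pool.Agent.H120R2.Clique

/-- number of `N`-sets containing a given set -/
theorem card_supersets {n : ℕ} (N : ℕ) (T : Finset (Fin n)) (hT : T.card ≤ N) :
    (((Finset.univ : Finset (Fin n)).powersetCard N).filter (fun S => T ⊆ S)).card =
      (n - T.card).choose (N - T.card) := by
  have h : (((Finset.univ : Finset (Fin n)) \ T).powersetCard (N - T.card)).card =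
      (n - T.card).choose (N - T.card) := by
    rw [Finset.card_powersetCard, Finset.card_sdiff_of_subset (Finset.subset_univ T), Finset.card_univ,
      Fintype.card_fin]
  rw [← h]
  refine Finset.card_nbij' (fun S => S \ T) (fun U => U ∪ T) ?_ ?_ ?_ ?_
  · intro S hS
    simp only [Finset.coe_filter, Finset.mem_powersetCard, Set.mem_setOf_eq] at hS
    obtain ⟨⟨_, hS⟩, hTS⟩ := hS
    rw [Finset.mem_coe, Finset.mem_powersetCard, Finset.card_sdiff_of_subset hTS, hS]
    exact ⟨Finset.sdiff_subset_sdiff (Finset.subset_univ _) (Finset.Subset.refl _), rfl⟩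
  · intro U hU
    rw [Finset.mem_coe, Finset.mem_powersetCard] at hU
    obtain ⟨hU1, hU2⟩ := hU
    have hd : Disjoint U T := by
      rw [Finset.disjoint_left]
      intro x hx hx'
      exact (Finset.mem_sdiff.mp (hU1 hx)).2 hx'
    simp only [Finset.coe_filter, Finset.mem_powersetCard, Set.mem_setOf_eq]
    refine ⟨⟨Finset.subset_univ _, ?_⟩, Finset.subset_union_right⟩
    rw [Finset.card_union_of_disjoint hd, hU2]
    omega
  · intro S hS
    simp only [Finset.coe_filter, Finset.mem_powersetCard, Set.mem_setOf_eq] at hS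
    exact Finset.sdiff_union_of_subset hS.2
  · intro U hU
    rw [Finset.mem_coe, Finset.mem_powersetCard] at hU
    obtain ⟨hU1, hU2⟩ := hU
    ext x
    simp only [Finset.mem_sdiff, Finset.mem_union]
    constructor
    · rintro ⟨h1 | h1, h2⟩
      · exact h1
      · exact absurd h1 h2
    · intro h1
      exact ⟨Or.inl h1, (Finset.mem_sdiff.mp (hU1 h1)).2⟩

/-- double counting -/
theorem sum_sub {n : ℕ} (N t : ℕ) (ht : t ≤ N) (G : Finset (Finset (Fin n)))
    (hG : ∀ T ∈ G, T.card = t) :
    ∑ S ∈ (Finset.univ : Finset (Fin n)).powersetCard N, (G.filter (· ⊆ S)).card =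
      G.card * (n - t).choose (N - t) := by
  have h1 : ∀ S : Finset (Fin n), (G.filter (· ⊆ S)).card = ∑ T ∈ G, if T ⊆ S then 1 else 0 := by
    intro S
    rw [Finset.card_filter]
  simp only [h1]
  rw [Finset.sum_comm]
  rw [Finset.sum_congr rfl (g := fun _ => (n - t).choose (N - t))]
  · simp
  · intro T hT
    rw [← Finset.card_filter, card_supersets N T (by rw [hG T hT]; exact ht), hG T hT]

/-- transfer to `Fin N` -/
theorem inside {n q m N : ℕ} (L : Finset (Finset (Fin n))) (hL : ∀ A ∈ L, A.card = q)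
    (M : Finset (Fin n)) (hM : M.card = N)
    (h : ∀ S ⊆ M, S.card = m → ¬ S.powersetCard q ⊆ L) :
    (L.filter (· ⊆ M)).card ≤ ex N q m := by
  classical
  set f : Fin N ↪ Fin n := (M.orderEmbOfFin hM).toEmbedding with hf
  have hfM : (univ : Finset (Fin N)).map f = M := by
    ext x
    have h1 : x ∈ Set.range (M.orderEmbOfFin hM) ↔ x ∈ (M : Set (Fin n)) := by
      rw [Finset.range_orderEmbOfFin]
    rw [mem_map]
    constructor
    · rintro ⟨i, -, hi⟩
      exact_mod_cast h1.1 ⟨i, hi⟩
    · intro hx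
      obtain ⟨i, hi⟩ := h1.2 (by exact_mod_cast hx)
      exact ⟨i, mem_univ _, hi⟩
  set H' : Finset (Finset (Fin N)) := univ.filter (fun B => B.map f ∈ L) with hH'
  have e1 : (L.filter (· ⊆ M)).card = H'.card := by
    symm
    refine Finset.card_bij (fun B _ => B.map f) ?_ ?_ ?_
    · intro B hB
      rw [hH', mem_filter] at hB
      rw [mem_filter]
      refine ⟨hB.2, ?_⟩
      rw [← hfM]
      exact Finset.map_subset_map.2 (subset_univ _)
    · intro B _ B' _ hBB
      exact Finset.map_injective _ hBB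
    · intro A hA
      rw [mem_filter, ← hfM, Finset.subset_map_iff] at hA
      obtain ⟨hA1, B, -, rfl⟩ := hA
      exact ⟨B, mem_filter.2 ⟨mem_univ _, hA1⟩, rfl⟩
  rw [e1]
  apply le_ex
  · intro B hB
    rw [hH', mem_filter] at hB
    have := hL _ hB.2
    rwa [Finset.card_map] at this
  · rintro ⟨A, hA, hAH⟩
    refine h (A.map f) ?_ (by rw [Finset.card_map, hA]) ?_
    · rw [← hfM]
      exact Finset.map_subset_map.2 (subset_univ _)
    · intro B hB
      rw [mem_powersetCard] at hB
      obtain ⟨B', hB', rfl⟩ := Finset.subset_map_iff.mp hB.1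
      have : B' ∈ H' := hAH (by
        rw [mem_powersetCard]
        exact ⟨hB', by rw [← hB.2, Finset.card_map]⟩)
      rw [hH', mem_filter] at this
      exact this.2

/-- supersaturation by averaging over the `N`-sets -/
theorem sat {n q N : ℕ} (hN : q + 1 ≤ N) (hn : N ≤ n)
    (L : Finset (Finset (Fin n))) (hL : ∀ A ∈ L, A.card = q)
    (K : Finset (Finset (Fin n))) (hK : ∀ S : Finset (Fin n), S.card = q + 1 →
      S.powersetCard q ⊆ L → S ∈ K) (hKc : ∀ S ∈ K, S.card = q + 1) :
    (L.card : ℝ) / n.choose q ≤ (ex N q (q + 1) : ℝ) / N.choose q +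
      (N.choose (q + 1) : ℝ) * ((K.card : ℝ) / n.choose (q + 1)) := by
  classical
  have h1 : ∀ M ∈ (univ : Finset (Fin n)).powersetCard N, (L.filter (· ⊆ M)).card ≤
      ex N q (q + 1) + N.choose q * (K.filter (· ⊆ M)).card := by
    intro M hM
    rw [mem_powersetCard] at hM
    by_cases hc : ∃ S ⊆ M, S.card = q + 1 ∧ S.powersetCard q ⊆ L
    · obtain ⟨S, hS1, hS2, hS3⟩ := hc
      have h2 : 1 ≤ (K.filter (· ⊆ M)).card :=
        Finset.card_pos.2 ⟨S, mem_filter.2 ⟨hK S hS2 hS3, hS1⟩⟩
      have h3 : (L.filter (· ⊆ M)).card ≤ N.choose q := by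
        rw [← hM.2, ← Finset.card_powersetCard]
        apply Finset.card_le_card
        intro A hA
        rw [mem_filter] at hA
        exact mem_powersetCard.2 ⟨hA.2, hL A hA.1⟩
      calc (L.filter (· ⊆ M)).card ≤ N.choose q * 1 := by rw [mul_one]; exact h3
        _ ≤ N.choose q * (K.filter (· ⊆ M)).card := Nat.mul_le_mul_left _ h2
        _ ≤ _ := Nat.le_add_left _ _
    · push Not at hc
      exact (inside L hL M hM.2 hc).trans (Nat.le_add_right _ _)
  have h2 := Finset.sum_le_sum h1
  rw [sum_sub N q (by omega) L hL, Finset.sum_add_distrib, Finset.sum_const, smul_eq_mul,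
    ← Finset.mul_sum, sum_sub N (q + 1) hN K hKc, Finset.card_powersetCard, Finset.card_univ,
    Fintype.card_fin] at h2
  have e1 : n.choose N * N.choose q = n.choose q * (n - q).choose (N - q) :=
    Nat.choose_mul (by omega)
  have e2 : n.choose N * N.choose (q + 1) =
      n.choose (q + 1) * (n - (q + 1)).choose (N - (q + 1)) := Nat.choose_mul hN
  have p1 : (0 : ℝ) < n.choose N := by exact_mod_cast Nat.choose_pos hn
  have p2 : (0 : ℝ) < N.choose q := by exact_mod_cast Nat.choose_pos (by omega)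
  have p3 : (0 : ℝ) < n.choose q := by exact_mod_cast Nat.choose_pos (by omega)
  have p4 : (0 : ℝ) < n.choose (q + 1) := by exact_mod_cast Nat.choose_pos (by omega)
  have p5 : (0 : ℝ) < (n - q).choose (N - q) := by exact_mod_cast Nat.choose_pos (by omega)
  have h2' : (L.card : ℝ) * (n - q).choose (N - q) ≤ n.choose N * ex N q (q + 1) +
      N.choose q * (K.card * (n - (q + 1)).choose (N - (q + 1))) := by exact_mod_cast h2
  have e1' : (n.choose N : ℝ) * N.choose q = n.choose q * (n - q).choose (N - q) := by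
    exact_mod_cast e1
  have e2' : (n.choose N : ℝ) * N.choose (q + 1) =
      n.choose (q + 1) * (n - (q + 1)).choose (N - (q + 1)) := by exact_mod_cast e2
  have s1 : (L.card : ℝ) / n.choose q =
      (L.card : ℝ) * (n - q).choose (N - q) / (n.choose N * N.choose q) := by
    rw [e1']
    field_simp
  have s2 : (n.choose N * ex N q (q + 1) +
      N.choose q * (K.card * (n - (q + 1)).choose (N - (q + 1))) : ℝ) / (n.choose N * N.choose q) =
      (ex N q (q + 1) : ℝ) / N.choose q +
      (N.choose (q + 1) : ℝ) * ((K.card : ℝ) / n.choose (q + 1)) := by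
    have s3 : (K.card * (n - (q + 1)).choose (N - (q + 1)) : ℝ) / n.choose N =
        (N.choose (q + 1) : ℝ) * ((K.card : ℝ) / n.choose (q + 1)) := by
      rw [div_eq_iff p1.ne']
      have : (N.choose (q + 1) : ℝ) * ((K.card : ℝ) / n.choose (q + 1)) * n.choose N =
        (n.choose N * N.choose (q + 1)) * ((K.card : ℝ) / n.choose (q + 1)) := by ring
      rw [this, e2']
      field_simp
    rw [← s3]
    field_simp
  rw [s1, ← s2]
  exact div_le_div_of_nonneg_right h2' (by positivity)

/-- few complete `(q+1)`-sets imply few `q`-sets -/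
theorem sat_lim (q : ℕ) (η : ℝ) (hη : 0 < η) : ∃ τ : ℝ, 0 < τ ∧ ∃ n₀ : ℕ, ∀ n : ℕ, n₀ ≤ n →
    ∀ L : Finset (Finset (Fin n)), (∀ A ∈ L, A.card = q) → ∀ K : Finset (Finset (Fin n)),
    (∀ S : Finset (Fin n), S.card = q + 1 → S.powersetCard q ⊆ L → S ∈ K) →
    (∀ S ∈ K, S.card = q + 1) → (K.card : ℝ) ≤ τ * n.choose (q + 1) →
    (L.card : ℝ) ≤ (turanDensity q (q + 1) + η) * n.choose q := by
  have h1 := (ratio_tendsto q (q + 1)).eventually
    (gt_mem_nhds (show turanDensity q (q + 1) < turanDensity q (q + 1) + η / 2 by linarith))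
  obtain ⟨N, hN1, hN2⟩ := (h1.and (Filter.eventually_ge_atTop (q + 1))).exists
  have p1 : (0 : ℝ) < N.choose (q + 1) := by exact_mod_cast Nat.choose_pos hN2
  refine ⟨η / 2 / N.choose (q + 1), by positivity, N, ?_⟩
  intro n hn L hL K hK hKc hKl
  have h2 := sat hN2 hn L hL K hK hKc
  have p3 : (0 : ℝ) < n.choose q := by exact_mod_cast Nat.choose_pos (by omega)
  have p4 : (0 : ℝ) < n.choose (q + 1) := by exact_mod_cast Nat.choose_pos (by omega)
  rw [← div_le_iff₀ p4] at hKl
  have h3 : (N.choose (q + 1) : ℝ) * ((K.card : ℝ) / n.choose (q + 1)) ≤ η / 2 := by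
    calc (N.choose (q + 1) : ℝ) * ((K.card : ℝ) / n.choose (q + 1)) ≤
        (N.choose (q + 1) : ℝ) * (η / 2 / N.choose (q + 1)) := by gcongr
      _ = η / 2 := by field_simp
  rw [← div_le_iff₀ p3]
  linarith

theorem density_le_ratio {k m n : ℕ} (hkn : k ≤ n) :
    turanDensity k m ≤ (ex n k m : ℝ) / (n.choose k : ℝ) := by
  obtain ⟨i, rfl⟩ : ∃ i, n = i + k := ⟨n - k, by omega⟩
  have h1 : Filter.Tendsto (fun i : ℕ => (ex (i + k) k m : ℝ) / ((i + k).choose k : ℝ))
      Filter.atTop (nhds (turanDensity k m)) :=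
    (ratio_tendsto k m).comp (Filter.tendsto_add_atTop_nat k)
  exact (ratio_antitone k m).le_of_tendsto h1 i

/-- an extremal `K_m^k`-free family -/
theorem exists_extremal {n k m : ℕ} (hkm : k ≤ m) : ∃ G : Finset (Finset (Fin n)),
    (∀ A ∈ G, A.card = k) ∧ ¬ HasClique G k m ∧ G.card = ex n k m := by
  classical
  have hne : ((((univ : Finset (Fin n)).powersetCard k).powerset).filter
      (fun G => ¬ HasClique G k m)).Nonempty := by
    refine ⟨∅, ?_⟩
    rw [mem_filter, mem_powerset]
    refine ⟨empty_subset _, ?_⟩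
    rintro ⟨A, hA, hAs⟩
    obtain ⟨B, hB, hBc⟩ := Finset.exists_subset_card_eq (show k ≤ A.card by omega)
    have := hAs (mem_powersetCard.2 ⟨hB, hBc⟩)
    simp at this
  obtain ⟨G, hG, hGs⟩ := Finset.exists_mem_eq_sup _ hne Finset.card
  rw [mem_filter, mem_powerset] at hG
  refine ⟨G, fun A hA => (mem_powersetCard.1 (hG.1 hA)).2, hG.2, ?_⟩
  unfold ex
  exact hGs.symm

theorem density_nonneg (k m : ℕ) : 0 ≤ turanDensity k m :=
  ge_of_tendsto' (ratio_tendsto k m) fun n => by positivity

/-- `π(K_{q+1}^q) ≤ q / (q + 1)` -/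
theorem density_le (q : ℕ) : (q + 1 : ℝ) * (1 - turanDensity q (q + 1)) ≥ 1 := by
  have h1 := density_le_ratio (k := q) (m := q + 1) (n := q + 1) (by omega)
  obtain ⟨G, hG1, hG2, hG3⟩ := exists_extremal (n := q + 1) (k := q) (m := q + 1) (by omega)
  have h2 : G.card ≤ q := by
    have h3 : G ⊆ (univ : Finset (Fin (q + 1))).powersetCard q := fun A hA =>
      mem_powersetCard.2 ⟨subset_univ _, hG1 A hA⟩
    have h4 : G ≠ (univ : Finset (Fin (q + 1))).powersetCard q := by
      rintro rfl
      exact hG2 ⟨univ, by simp, Finset.Subset.refl _⟩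
    have h5 := Finset.card_lt_card (Finset.ssubset_iff_subset_ne.2 ⟨h3, h4⟩)
    rw [Finset.card_powersetCard, Finset.card_univ, Fintype.card_fin, Nat.choose_succ_self_right]
      at h5
    omega
  rw [Nat.choose_succ_self_right, ← hG3] at h1
  have h3 : (G.card : ℝ) ≤ q := by exact_mod_cast h2
  have h4 : (0 : ℝ) < q + 1 := by positivity
  push_cast at h1
  rw [le_div_iff₀ h4] at h1
  nlinarith

end Pool.Agent.V11141.DP
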