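import Pool.Agent.V11141.DP.Comb

/-!
# Vertex degrees in `K_{r+1}^r`-free `r`-graphs: the upper bound for large powers
-/

set_option autoImplicit false

open Finset

namespace Pool.Agent.V11141.DP

open Pool.Agent.H120R2.Clique

theorem bin1 (q n : ℕ) (hn : q ≤ n) :
    ((n : ℝ) - q) * n.choose q = (q + 1) * n.choose (q + 1) := by
  have h := Nat.choose_succ_right_eq n q
  have h2 : (n.choose (q + 1) : ℝ) * (q + 1) = n.choose q * ((n - q : ℕ) : ℝ) := by exact_mod_cast h
  rw [Nat.cast_sub hn] at h2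
  linarith

theorem bin2 (q n : ℕ) (hq : 1 ≤ q) (hn : q ≤ n) :
    ((n : ℝ) - q + 1) * n.choose (q - 1) = q * n.choose q := by
  obtain ⟨k, rfl⟩ : ∃ k, q = k + 1 := ⟨q - 1, by omega⟩
  have h := bin1 k n (by omega)
  rw [Nat.add_sub_cancel]
  push_cast
  linarith

theorem bin3 (q n : ℕ) (hq : 1 ≤ q) (hn : 2 ≤ n) :
    (n.choose q : ℝ) - 2 * n.choose (q - 1) ≤ (n - 2).choose q := by
  obtain ⟨k, rfl⟩ : ∃ k, q = k + 1 := ⟨q - 1, by omega⟩
  obtain ⟨m, rfl⟩ : ∃ m, n = m + 2 := ⟨n - 2, by omega⟩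
  rw [Nat.add_sub_cancel, Nat.add_sub_cancel]
  have h1 : (m + 2).choose (k + 1) = (m + 1).choose k + (m.choose k + m.choose (k + 1)) := by
    rw [show m + 2 = (m + 1) + 1 by ring, Nat.choose_succ_succ, Nat.choose_succ_succ m k]
  have h2 : (m + 1).choose k ≤ (m + 2).choose k := Nat.choose_le_choose _ (by omega)
  have h3 : m.choose k ≤ (m + 2).choose k := Nat.choose_le_choose _ (by omega)
  have h4 : ((m + 2).choose (k + 1) : ℝ) = (m + 1).choose k + (m.choose k + m.choose (k + 1)) := by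
    exact_mod_cast h1
  have h2' : ((m + 1).choose k : ℝ) ≤ (m + 2).choose k := by exact_mod_cast h2
  have h3' : (m.choose k : ℝ) ≤ (m + 2).choose k := by exact_mod_cast h3
  linarith

/-- `(r - 1) (1 - π(K_{r-1}^{r-2}))` with `r = q + 2` -/
noncomputable def kap (q : ℕ) : ℝ := (q + 1 : ℝ) * (1 - turanDensity q (q + 1))

theorem one_le_kap (q : ℕ) : 1 ≤ kap q := density_le q

theorem kap_le (q : ℕ) : kap q ≤ q + 1 := by
  unfold kap
  have := density_nonneg q (q + 1)
  have h : (0 : ℝ) ≤ (q + 1 : ℝ) * turanDensity q (q + 1) := by positivity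
  linarith

/-- a constant -/
noncomputable def cc (q : ℕ) : ℝ := 4 * q * (q + 1) * (q + 2)

theorem bin4 (q n : ℕ) (hq : 1 ≤ q) (hn : 2 * q ≤ n) :
    (n.choose (q - 1) : ℝ) * n ^ 2 ≤ 4 * q * (q + 1) * n.choose (q + 1) := by
  have h1 := bin1 q n (by omega)
  have h2 := bin2 q n hq (by omega)
  have hn' : (2 : ℝ) * q ≤ n := by exact_mod_cast hn
  have hq' : (1 : ℝ) ≤ q := by exact_mod_cast hq
  have hB : (0 : ℝ) ≤ n.choose (q - 1) := by positivity
  have h3 : (n : ℝ) ^ 2 / 4 ≤ (n - q + 1) * (n - q) := by nlinarith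
  have h4 : ((n : ℝ) - q + 1) * (n - q) * n.choose (q - 1) = q * (q + 1) * n.choose (q + 1) := by
    calc ((n : ℝ) - q + 1) * (n - q) * n.choose (q - 1) =
        (n - q) * (((n : ℝ) - q + 1) * n.choose (q - 1)) := by ring
      _ = q * (((n : ℝ) - q) * n.choose q) := by rw [h2]; ring
      _ = _ := by rw [h1]; ring
  nlinarith [mul_le_mul_of_nonneg_right h3 hB]

theorem U1 (q : ℕ) (hq : 1 ≤ q) (η : ℝ) (hη : 0 < η) (hη1 : η ≤ 1 / 4) : ∃ τ : ℝ, 0 < τ ∧
    ∃ n₀ : ℕ, ∀ n : ℕ, n₀ ≤ n → ∀ H : Finset (Finset (Fin n)), ¬ HasClique H (q + 2) (q + 3) →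
    ∀ (X : Finset (Fin n)) (x : Fin n),
    (∀ y ∈ insert x X, ((Miss (q + 2) H y).card : ℝ) ≤ τ * n.choose (q + 1)) →
    ((X.card : ℝ) / n - 1 / n) * (kap q - η) - cc q * ((X.card : ℝ) / n) ^ 2 ≤
      ((Miss (q + 2) H x).card : ℝ) / n.choose (q + 1) := by
  have hq' : (1 : ℝ) ≤ q := by exact_mod_cast hq
  set η' : ℝ := η / (2 * (q + 1)) with hη'
  have hη'0 : 0 < η' := by positivity
  obtain ⟨τ, hτ, n₀, h0⟩ := count q hq η' hη'0
  obtain ⟨n₁, hn₁⟩ := exists_nat_ge (2 * q / η' + 2 * q)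
  refine ⟨τ, hτ, max n₀ (max n₁ (2 * q + 2)), ?_⟩
  intro n hn H hF X x hX
  have hnn0 : n₀ ≤ n := (le_max_left _ _).trans hn
  have hnn1 : n₁ ≤ n := ((le_max_left _ _).trans (le_max_right _ _)).trans hn
  have hnn2 : 2 * q + 2 ≤ n := ((le_max_right _ _).trans (le_max_right _ _)).trans hn
  have h1 := h0 n hnn0 H hF X x hX
  have b1 := bin1 q n (by omega)
  have b2 := bin2 q n hq (by omega)
  have b3 := bin3 q n hq (by omega)
  have b4 := bin4 q n hq (by omega)
  have hnr : (2 : ℝ) * q + 2 ≤ n := by exact_mod_cast hnn2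
  have hnr1 : 2 * q / η' + 2 * q ≤ (n : ℝ) := hn₁.trans (by exact_mod_cast hnn1)
  have hn0 : (0 : ℝ) < n := by linarith
  have pA : (0 : ℝ) < n.choose q := by exact_mod_cast Nat.choose_pos (by omega)
  have pN : (0 : ℝ) < n.choose (q + 1) := by exact_mod_cast Nat.choose_pos (by omega)
  have pB : (0 : ℝ) ≤ n.choose (q - 1) := by positivity
  set A : ℝ := ((n.choose q : ℕ) : ℝ) with hA
  set B : ℝ := ((n.choose (q - 1) : ℕ) : ℝ) with hB
  set N : ℝ := ((n.choose (q + 1) : ℕ) : ℝ) with hN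
  set π' : ℝ := turanDensity q (q + 1) with hπ
  have hk1 := one_le_kap q
  have hk : kap q = (q + 1) * (1 - π') := rfl
  -- B is small
  have c1 : 2 * B ≤ η' * A := by
    have h2 : 2 * q / η' ≤ n - q + 1 := by linarith
    rw [div_le_iff₀ hη'0] at h2
    have h3 : 0 < (n : ℝ) - q + 1 := by linarith
    have h4 : (n - q + 1) * (2 * B) ≤ (n - q + 1) * (η' * A) := by
      calc (n - q + 1) * (2 * B) = 2 * ((n - q + 1) * B) := by ring
        _ = (2 * q) * A := by rw [b2]; ring
        _ ≤ ((n - q + 1) * η') * A := by gcongr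
        _ = _ := by ring
    exact le_of_mul_le_mul_left h4 h3
  -- A is large
  have c2 : (q + 1) * N ≤ n * A := by
    rw [← b1]
    have : 0 ≤ (q : ℝ) * A := by positivity
    linarith
  have c3 : 0 ≤ 1 - π' - 2 * η' := by
    have h2 : 2 * η' * (q + 1) = η := by rw [hη']; field_simp
    have h3 : 0 ≤ (q + 1) * (1 - π' - 2 * η') := by
      have : (q + 1) * (1 - π' - 2 * η') = kap q - η := by rw [hk, ← h2]; ring
      rw [this]; linarith
    exact nonneg_of_mul_nonneg_right h3 (by positivity)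
  have c4 : A * (1 - π' - 2 * η') ≤ (n - 2).choose q - (π' + η') * A := by
    have : A * (1 - π' - 2 * η') = A - η' * A - (π' + η') * A := by ring
    linarith
  have c5 : N / n * (kap q - η) ≤ (n - 2).choose q - (π' + η') * A := by
    refine le_trans ?_ c4
    have h2 : 2 * η' * (q + 1) = η := by rw [hη']; field_simp
    have h3 : N / n * (kap q - η) = ((q + 1) * N / n) * (1 - π' - 2 * η') := by
      rw [hk, ← h2]; ring
    rw [h3]
    apply mul_le_mul_of_nonneg_right _ c3
    rw [div_le_iff₀ hn0]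
    linarith
  have c6 : 0 ≤ N / n * (kap q - η) := by
    have : 0 ≤ kap q - η := by linarith
    positivity
  have c7 : ((X.card : ℝ) - 1) ≤ (X.erase x).card := by
    have h2 : X.card ≤ (X.erase x).card + 1 := by
      have := Finset.pred_card_le_card_erase (s := X) (a := x)
      omega
    have : (X.card : ℝ) ≤ (X.erase x).card + 1 := by exact_mod_cast h2
    linarith
  have c8 : ((X.card : ℝ) - 1) * (N / n * (kap q - η)) ≤
      (Miss (q + 2) H x).card + (q + 2) * ((X.card : ℝ) ^ 2 * B) := by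
    refine le_trans ?_ h1
    exact (mul_le_mul_of_nonneg_right c7 c6).trans (mul_le_mul_of_nonneg_left c5 (by positivity))
  have c9 : B ≤ 4 * q * (q + 1) * N / n ^ 2 := by
    rw [le_div_iff₀ (by positivity)]
    exact b4
  rw [le_div_iff₀ pN]
  have e1 : (((X.card : ℝ) / n - 1 / n) * (kap q - η) - cc q * ((X.card : ℝ) / n) ^ 2) * N =
      ((X.card : ℝ) - 1) * (N / n * (kap q - η)) -
        (q + 2) * ((X.card : ℝ) ^ 2 * (4 * q * (q + 1) * N / n ^ 2)) := by
    unfold cc
    field_simp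
  rw [e1]
  have c10 : (q + 2 : ℝ) * ((X.card : ℝ) ^ 2 * B) ≤
      (q + 2) * ((X.card : ℝ) ^ 2 * (4 * q * (q + 1) * N / n ^ 2)) := by gcongr
  linarith

theorem U2 (q : ℕ) (hq : 1 ≤ q) (η : ℝ) (hη : 0 < η) (hη1 : η ≤ 1 / 4) : ∃ ε : ℝ, 0 < ε ∧
    ∃ n₀ : ℕ, ∀ n : ℕ, n₀ ≤ n → ∀ H : Finset (Finset (Fin n)), ¬ HasClique H (q + 2) (q + 3) →
    ∀ (X : Finset (Fin n)), (∀ y ∈ X, ((Miss (q + 2) H y).card : ℝ) ≤ ε * n.choose (q + 1)) →
    ∀ x ∈ X, ((X.card : ℝ) / n) * (kap q - 2 * η) - kap q / n ≤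
      ((Miss (q + 2) H x).card : ℝ) / n.choose (q + 1) := by
  obtain ⟨τ, hτ, n₀, h0⟩ := U1 q hq η hη hη1
  have hq' : (1 : ℝ) ≤ q := by exact_mod_cast hq
  have hc : 0 < cc q := by unfold cc; positivity
  have hk1 := one_le_kap q
  set a₀ : ℝ := η / cc q with ha
  have ha0 : 0 < a₀ := by positivity
  obtain ⟨n₁, hn₁⟩ := exists_nat_gt (4 * (1 + kap q) / a₀)
  refine ⟨min τ (a₀ / 8), by positivity, max n₀ (max n₁ (q + 1)), ?_⟩
  intro n hn H hF X hX x hx
  have hnn0 : n₀ ≤ n := (le_max_left _ _).trans hn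
  have hnn1 : n₁ ≤ n := ((le_max_left _ _).trans (le_max_right _ _)).trans hn
  have hnn2 : q + 1 ≤ n := ((le_max_right _ _).trans (le_max_right _ _)).trans hn
  have hnr1 : 4 * (1 + kap q) / a₀ < (n : ℝ) := hn₁.trans_le (by exact_mod_cast hnn1)
  have hn0 : (0 : ℝ) < n := lt_trans (by positivity) hnr1
  have pN : (0 : ℝ) < n.choose (q + 1) := by exact_mod_cast Nat.choose_pos (by omega)
  -- the inequality for subsets of `X` with at most `a₀ n` elements
  have key : ∀ Y ⊆ X, (Y.card : ℝ) ≤ a₀ * n → ((Y.card : ℝ) / n) * (kap q - 2 * η) - kap q / n ≤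
      ((Miss (q + 2) H x).card : ℝ) / n.choose (q + 1) := by
    intro Y hY hYc
    refine le_trans ?_ (h0 n hnn0 H hF Y x ?_)
    · set t : ℝ := (Y.card : ℝ) / n with ht
      have ht0 : 0 ≤ t := by positivity
      have ht1 : t ≤ a₀ := by rw [ht, div_le_iff₀ hn0]; exact hYc
      have h1 : cc q * t ^ 2 ≤ η * t := by
        have h2 : cc q * a₀ = η := by rw [ha]; field_simp
        calc cc q * t ^ 2 = cc q * t * t := by ring
          _ ≤ cc q * a₀ * t := by gcongr
          _ = η * t := by rw [h2]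
      have h3 : 0 ≤ η * (1 / n) := by positivity
      have h4 : kap q / n = kap q * (1 / n) := by ring
      nlinarith
    · intro y hy
      have h1 : y ∈ X := by
        rw [mem_insert] at hy
        rcases hy with rfl | hy
        · exact hx
        · exact hY hy
      refine (hX y h1).trans ?_
      exact mul_le_mul_of_nonneg_right (min_le_left _ _) pN.le
  by_cases hle : X.card ≤ ⌊a₀ * n⌋₊
  · refine key X (Finset.Subset.refl _) ?_
    exact (Nat.cast_le.2 hle).trans (Nat.floor_le (by positivity))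
  · exfalso
    push Not at hle
    obtain ⟨Y, hY, hYc⟩ := Finset.exists_subset_card_eq hle.le
    have h1 := key Y hY (by rw [hYc]; exact Nat.floor_le (by positivity))
    have h2 : ((Miss (q + 2) H x).card : ℝ) / n.choose (q + 1) ≤ a₀ / 8 := by
      rw [div_le_iff₀ pN]
      refine (hX x hx).trans ?_
      exact mul_le_mul_of_nonneg_right (min_le_right _ _) pN.le
    have h3 : a₀ - 1 / n ≤ (Y.card : ℝ) / n := by
      rw [hYc, le_div_iff₀ hn0, sub_mul, one_div_mul_cancel hn0.ne']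
      have := Nat.lt_floor_add_one (a₀ * n)
      linarith
    rw [div_lt_iff₀ ha0] at hnr1
    have h4 : (1 + kap q) / n ≤ a₀ / 4 := by
      rw [div_le_iff₀ hn0]
      linarith
    have h5 : (1 : ℝ) / 2 ≤ kap q - 2 * η := by linarith
    have h6 : (1 + kap q) / n = 1 / n + kap q / n := by ring
    have h7 : (0 : ℝ) < 1 / n := by positivity
    have h8 : 0 < kap q / n := by positivity
    have h9 : (a₀ - 1 / n) * (1 / 2) ≤ ((Y.card : ℝ) / n) * (kap q - 2 * η) := by
      have h10 : (0 : ℝ) ≤ (Y.card : ℝ) / n := by positivity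
      have h11 : 0 ≤ a₀ - 1 / n := by linarith
      exact mul_le_mul h3 h5 (by norm_num) h10
    linarith

theorem aexp {t : ℝ} : t * Real.exp (-t) ≤ Real.exp (-1) := by
  have h := Real.add_one_le_exp (t - 1)
  have h1 : t ≤ Real.exp (t - 1) := by linarith
  calc t * Real.exp (-t) ≤ Real.exp (t - 1) * Real.exp (-t) := by gcongr
    _ = Real.exp (-1) := by rw [← Real.exp_add]; congr 1; ring

theorem upper (q : ℕ) (hq : 1 ≤ q) (δ : ℝ) (hδ : 0 < δ) : ∃ P : ℝ, ∀ p : ℝ, P ≤ p →
    ∃ n₀ : ℕ, ∀ n : ℕ, n₀ ≤ n → ∀ H : Finset (Finset (Fin n)), (∀ e ∈ H, e.card = q + 2) →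
    ¬ HasClique H (q + 2) (q + 3) →
    ∑ x : Fin n, (deg H x : ℝ) ^ p ≤
      (Real.exp (-1) / kap q + δ) / p * n * (n.choose (q + 1) : ℝ) ^ p := by
  set η : ℝ := min (1 / 4) (δ / 12) with hη
  have hη0 : 0 < η := by positivity
  have hη1 : η ≤ 1 / 4 := min_le_left _ _
  have hη2 : η ≤ δ / 12 := min_le_right _ _
  obtain ⟨ε, hε, n₀, h0⟩ := U2 q hq η hη0 hη1
  have hk1 := one_le_kap q
  have hk2 : 1 / 2 ≤ kap q - 2 * η := by linarith
  have he1 : Real.exp (-1) ≤ 1 := Real.exp_le_one_iff.2 (by norm_num)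
  have he0 : 0 < Real.exp (-1) := Real.exp_pos _
  set G : ℝ := Real.exp (-1) / (kap q - 2 * η) with hG
  have hG0 : 0 < G := by positivity
  have hG1 : G ≤ Real.exp (-1) / kap q + δ / 3 := by
    have h1 : G - Real.exp (-1) / kap q =
        Real.exp (-1) * (2 * η) / ((kap q - 2 * η) * kap q) := by
      rw [hG]
      have : kap q - 2 * η ≠ 0 := by linarith
      have : kap q ≠ 0 := by linarith
      field_simp
      ring
    have h2 : Real.exp (-1) * (2 * η) / ((kap q - 2 * η) * kap q) ≤ δ / 3 := by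
      rw [div_le_iff₀ (by positivity)]
      have h3 : 1 / 2 ≤ (kap q - 2 * η) * kap q := by nlinarith
      have h4 : Real.exp (-1) * (2 * η) ≤ 1 * (2 * η) := by gcongr
      nlinarith
    linarith
  refine ⟨max 1 (6 / (ε ^ 2 * δ)), ?_⟩
  intro p hp
  have hp1 : 1 ≤ p := (le_max_left _ _).trans hp
  have hp2 : 6 / (ε ^ 2 * δ) ≤ p := (le_max_right _ _).trans hp
  have hp0 : 0 < p := by linarith
  have hpe : p * Real.exp (-(ε * p)) ≤ δ / 3 := by
    have h1 := Real.quadratic_le_exp_of_nonneg (show 0 ≤ ε * p by positivity)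
    have h2 : (ε * p) ^ 2 / 2 ≤ Real.exp (ε * p) := by
      have : 0 ≤ ε * p := by positivity
      linarith
    rw [Real.exp_neg, ← div_eq_mul_inv, div_le_iff₀ (Real.exp_pos _)]
    rw [div_le_iff₀ (by positivity)] at hp2
    have h3 : p ≤ δ / 3 * ((ε * p) ^ 2 / 2) := by
      have : δ / 3 * ((ε * p) ^ 2 / 2) = p * (p * (ε ^ 2 * δ)) / 6 := by ring
      rw [this]
      nlinarith
    exact h3.trans (by gcongr)
  -- large `n`
  have hlim : Filter.Tendsto (fun n : ℕ => G * Real.exp (kap q * p / (n : ℝ))) Filter.atTop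
      (nhds (G * Real.exp 0)) := by
    refine Filter.Tendsto.const_mul _ ?_
    exact (Real.continuous_exp.tendsto 0).comp (tendsto_const_div_atTop_nhds_zero_nat _)
  rw [Real.exp_zero, mul_one] at hlim
  obtain ⟨n₁, hn₁⟩ := Filter.eventually_atTop.1
    (hlim.eventually (gt_mem_nhds (show G < G + δ / 3 by linarith)))
  refine ⟨max n₀ (max n₁ (q + 1)), ?_⟩
  intro n hn H hH hF
  have hnn0 : n₀ ≤ n := (le_max_left _ _).trans hn
  have hnn1 : n₁ ≤ n := ((le_max_left _ _).trans (le_max_right _ _)).trans hn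
  have hnn2 : q + 1 ≤ n := ((le_max_right _ _).trans (le_max_right _ _)).trans hn
  have hn0 : (0 : ℝ) < n := by
    have : 0 < n := by omega
    exact_mod_cast this
  have pN : (0 : ℝ) < n.choose (q + 1) := by exact_mod_cast Nat.choose_pos (by omega)
  classical
  set N : ℝ := ((n.choose (q + 1) : ℕ) : ℝ) with hN
  set X : Finset (Fin n) := univ.filter (fun y => ((Miss (q + 2) H y).card : ℝ) ≤ ε * N) with hX
  have hXm : ∀ y, y ∈ X ↔ ((Miss (q + 2) H y).card : ℝ) ≤ ε * n.choose (q + 1) := by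
    intro y
    rw [hX, mem_filter, hN]
    exact ⟨fun h => h.2, fun h => ⟨mem_univ _, h⟩⟩
  have h1 := h0 n hnn0 H hF X (fun y hy => (hXm y).1 hy)
  have hdeg : ∀ x, (deg H x : ℝ) ≤ N * (1 - ((Miss (q + 2) H x).card : ℝ) / N) := by
    intro x
    have h2 := deg_add_miss (r := q + 2) (by omega) H hH x
    have h3 : (n - 1).choose (q + 2 - 1) ≤ n.choose (q + 1) := Nat.choose_le_choose _ (by omega)
    have h4 : deg H x + (Miss (q + 2) H x).card ≤ n.choose (q + 1) := h2 ▸ h3
    have h5 : (deg H x : ℝ) + (Miss (q + 2) H x).card ≤ N := by rw [hN]; exact_mod_cast h4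
    have h6 : N * (1 - ((Miss (q + 2) H x).card : ℝ) / N) = N - (Miss (q + 2) H x).card := by
      field_simp
    rw [h6]
    linarith
  have hpow : ∀ x (u : ℝ), u ≤ ((Miss (q + 2) H x).card : ℝ) / N →
      (deg H x : ℝ) ^ p ≤ N ^ p * Real.exp (-(u * p)) := by
    intro x u hu
    have h2 : (deg H x : ℝ) ≤ N * Real.exp (-u) := by
      refine (hdeg x).trans ?_
      have := Real.add_one_le_exp (-u)
      exact mul_le_mul_of_nonneg_left (by linarith) pN.le
    calc (deg H x : ℝ) ^ p ≤ (N * Real.exp (-u)) ^ p :=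
          Real.rpow_le_rpow (by positivity) h2 hp0.le
      _ = N ^ p * Real.exp (-(u * p)) := by
          rw [Real.mul_rpow pN.le (Real.exp_pos _).le, ← Real.exp_mul]
          congr 2
          ring
  set a : ℝ := (X.card : ℝ) / n with ha
  set k' : ℝ := kap q - 2 * η with hk'
  have hk'0 : 0 < k' := by linarith
  have hsum : ∑ x : Fin n, (deg H x : ℝ) ^ p ≤
      X.card * (N ^ p * Real.exp (-((a * k' - kap q / n) * p))) +
        n * (N ^ p * Real.exp (-(ε * p))) := by
    rw [← Finset.sum_filter_add_sum_filter_not univ (fun x => x ∈ X)]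
    apply add_le_add
    · have e1 : univ.filter (fun x => x ∈ X) = X := by ext x; simp
      rw [e1, ← nsmul_eq_mul]
      apply Finset.sum_le_card_nsmul
      intro x hx
      exact hpow x _ (h1 x hx)
    · have h2 : ∑ x ∈ univ.filter (fun x => ¬ x ∈ X), (deg H x : ℝ) ^ p ≤
          (univ.filter (fun x => ¬ x ∈ X)).card • (N ^ p * Real.exp (-(ε * p))) := by
        apply Finset.sum_le_card_nsmul
        intro x hx
        apply hpow
        rw [mem_filter] at hx
        have h3 := mt (hXm x).2 hx.2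
        push Not at h3
        rw [le_div_iff₀ pN]
        exact h3.le
      refine h2.trans ?_
      rw [nsmul_eq_mul]
      apply mul_le_mul_of_nonneg_right _ (by positivity)
      have h3 := card_filter_le (univ : Finset (Fin n)) (fun x => ¬ x ∈ X)
      rw [card_univ, Fintype.card_fin] at h3
      exact_mod_cast h3
  refine hsum.trans ?_
  have hNp : 0 < N ^ p := Real.rpow_pos_of_pos pN p
  have e1 : (X.card : ℝ) * (N ^ p * Real.exp (-((a * k' - kap q / n) * p))) +
        n * (N ^ p * Real.exp (-(ε * p))) =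
      (1 / (k' * p) * ((a * k' * p) * Real.exp (-(a * k' * p))) * Real.exp (kap q * p / n) +
        Real.exp (-(ε * p))) * n * N ^ p := by
    have h2 : Real.exp (-((a * k' - kap q / n) * p)) =
        Real.exp (-(a * k' * p)) * Real.exp (kap q * p / n) := by
      rw [← Real.exp_add]
      congr 1
      ring
    have h3 : (X.card : ℝ) = a * n := by rw [ha]; field_simp
    rw [h2, h3]
    field_simp
  rw [e1]
  apply mul_le_mul_of_nonneg_right _ hNp.le
  apply mul_le_mul_of_nonneg_right _ hn0.le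
  have h2 := aexp (t := a * k' * p)
  have h3 := (hn₁ n hnn1).le
  rw [le_div_iff₀ hp0, add_mul]
  have h4 : 1 / (k' * p) * ((a * k' * p) * Real.exp (-(a * k' * p))) * Real.exp (kap q * p / n) * p ≤
      G * Real.exp (kap q * p / n) := by
    have h5 : 1 / (k' * p) * ((a * k' * p) * Real.exp (-(a * k' * p))) *
        Real.exp (kap q * p / n) * p =
        (1 / k' * ((a * k' * p) * Real.exp (-(a * k' * p)))) * Real.exp (kap q * p / n) := by
      field_simp
    rw [h5]
    apply mul_le_mul_of_nonneg_right _ (Real.exp_pos _).le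
    have h7 : G = 1 / k' * Real.exp (-1) := by rw [hG]; ring
    rw [h7]
    exact mul_le_mul_of_nonneg_left h2 (by positivity)
  have h6 : Real.exp (-(ε * p)) * p = p * Real.exp (-(ε * p)) := mul_comm _ _
  rw [h6]
  linarith

/-- few vertices have nearly full degree -/
theorem largeUpper (q : ℕ) (hq : 1 ≤ q) (δ : ℝ) (hδ : 0 < δ) : ∃ ε₀ : ℝ, 0 < ε₀ ∧
    ∀ ε : ℝ, 0 < ε → ε ≤ ε₀ → ∃ n₀ : ℕ, ∀ n : ℕ, n₀ ≤ n → ∀ H : Finset (Finset (Fin n)),
    (∀ e ∈ H, e.card = q + 2) → ¬ HasClique H (q + 2) (q + 3) →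
    ((univ.filter (fun x : Fin n => (1 - ε) * (n.choose (q + 1) : ℝ) ≤ deg H x)).card : ℝ) ≤
      (1 / kap q + δ) * ε * n := by
  set η : ℝ := min (1 / 4) (δ / 8) with hη
  have hη0 : 0 < η := by positivity
  have hη1 : η ≤ 1 / 4 := min_le_left _ _
  have hη2 : η ≤ δ / 8 := min_le_right _ _
  obtain ⟨ε₀, hε₀, n₀, h0⟩ := U2 q hq η hη0 hη1
  have hk1 := one_le_kap q
  have hk2 : 1 / 2 ≤ kap q - 2 * η := by linarith
  have hG : 1 / (kap q - 2 * η) ≤ 1 / kap q + δ / 2 := by
    have h1 : 1 / (kap q - 2 * η) - 1 / kap q = (2 * η) / ((kap q - 2 * η) * kap q) := by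
      have : kap q - 2 * η ≠ 0 := by linarith
      have : kap q ≠ 0 := by linarith
      field_simp
      ring
    have h2 : (2 * η) / ((kap q - 2 * η) * kap q) ≤ δ / 2 := by
      rw [div_le_iff₀ (by positivity)]
      have h3 : 1 / 2 ≤ (kap q - 2 * η) * kap q := by nlinarith
      nlinarith
    linarith
  refine ⟨ε₀, hε₀, ?_⟩
  intro ε hε hεe
  obtain ⟨n₁, hn₁⟩ := exists_nat_ge ((1 / kap q + δ / 2) * kap q / (δ / 2 * ε))
  refine ⟨max n₀ (max n₁ (q + 1)), ?_⟩
  intro n hn H hH hF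
  have hnn0 : n₀ ≤ n := (le_max_left _ _).trans hn
  have hnn1 : n₁ ≤ n := ((le_max_left _ _).trans (le_max_right _ _)).trans hn
  have hnn2 : q + 1 ≤ n := ((le_max_right _ _).trans (le_max_right _ _)).trans hn
  have hnr : (1 / kap q + δ / 2) * kap q / (δ / 2 * ε) ≤ (n : ℝ) :=
    hn₁.trans (by exact_mod_cast hnn1)
  rw [div_le_iff₀ (by positivity)] at hnr
  have hn0 : (0 : ℝ) < n := by
    have : 0 < n := by omega
    exact_mod_cast this
  have pN : (0 : ℝ) < n.choose (q + 1) := by exact_mod_cast Nat.choose_pos (by omega)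
  set N : ℝ := ((n.choose (q + 1) : ℕ) : ℝ) with hN
  set Y : Finset (Fin n) := univ.filter (fun x : Fin n => (1 - ε) * N ≤ deg H x) with hY
  have hm : ∀ x ∈ Y, ((Miss (q + 2) H x).card : ℝ) ≤ ε * N := by
    intro x hx
    rw [hY, mem_filter] at hx
    have h2 := deg_add_miss (r := q + 2) (by omega) H hH x
    have h3 : (n - 1).choose (q + 2 - 1) ≤ n.choose (q + 1) := Nat.choose_le_choose _ (by omega)
    have h4 : deg H x + (Miss (q + 2) H x).card ≤ n.choose (q + 1) := h2 ▸ h3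
    have h5 : (deg H x : ℝ) + (Miss (q + 2) H x).card ≤ N := by rw [hN]; exact_mod_cast h4
    linarith [hx.2]
  rcases Y.eq_empty_or_nonempty with h | ⟨x, hx⟩
  · rw [h, card_empty, Nat.cast_zero]
    positivity
  · have h1 := h0 n hnn0 H hF Y (fun y hy => (hm y hy).trans
      (mul_le_mul_of_nonneg_right hεe pN.le)) x hx
    have h2 : ((Miss (q + 2) H x).card : ℝ) / N ≤ ε := by
      rw [div_le_iff₀ pN]; exact hm x hx
    have h3 : (Y.card : ℝ) * (kap q - 2 * η) ≤ ε * n + kap q := by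
      have h4 : ((Y.card : ℝ) / n) * (kap q - 2 * η) ≤ ε + kap q / n := by linarith
      calc (Y.card : ℝ) * (kap q - 2 * η) = (((Y.card : ℝ) / n) * (kap q - 2 * η)) * n := by
            field_simp
        _ ≤ (ε + kap q / n) * n := by gcongr
        _ = _ := by field_simp
    have h4 : (Y.card : ℝ) ≤ (ε * n + kap q) * (1 / (kap q - 2 * η)) := by
      rw [mul_one_div, le_div_iff₀ (by linarith)]
      exact h3
    refine h4.trans ?_
    have h5 : (ε * n + kap q) * (1 / (kap q - 2 * η)) ≤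
        (ε * n + kap q) * (1 / kap q + δ / 2) := by
      apply mul_le_mul_of_nonneg_left hG
      positivity
    refine h5.trans ?_
    nlinarith

end Pool.Agent.V11141.DP
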